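import Pool.Agent.Y580.FL.Base

/-! Six-vertex flags for 3-graphs without a complete 3-graph on five vertices: a right side which is
the sum of six functions of a structure on five vertices and the link of the sixth vertex in it. -/

set_option autoImplicit false
set_option maxRecDepth 100000
set_option maxHeartbeats 4000000
set_option linter.unusedSimpArgs false
open Finset

namespace Pool.Agent.T9h10.FC
open Pool.Agent.H122R2.N6 Pool.Agent.H37R3.Pen Pool.Agent.H37R3.K5 Pool.Agent.Y580.FL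

/-- the code of a structure on five vertices -/
def cd10 (b012 b013 b023 b123 b014 b024 b124 b034 b134 b234 : ℕ) : ℕ := Nat.add b012 (Nat.add (Nat.mul 2 b013) (Nat.add (Nat.mul 4 b023) (Nat.add (Nat.mul 8 b123) (Nat.add (Nat.mul 16 b014) (Nat.add (Nat.mul 32 b024) (Nat.add (Nat.mul 64 b124) (Nat.add (Nat.mul 128 b034) (Nat.add (Nat.mul 256 b134) (Nat.mul 512 b234)))))))))

/-- base and multiplicities of the ten pairs of the five vertices in the link of the sixth vertex -/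
def pen (zb : ℕ → ℕ) (kp : ℕ → ℕ → ℕ) (b012 b013 b023 b123 b014 b024 b124 b034 b134 b234 l0 l1 l2 l3 l4 l5 l6 l7 l8 l9 : ℕ) : ℕ := Nat.add (zb (cd10 b012 b013 b023 b123 b014 b024 b124 b034 b134 b234)) (Nat.add (Nat.mul (kp (cd10 b012 b013 b023 b123 b014 b024 b124 b034 b134 b234) 0) l0) (Nat.add (Nat.mul (kp (cd10 b012 b013 b023 b123 b014 b024 b124 b034 b134 b234) 1) l1) (Nat.add (Nat.mul (kp (cd10 b012 b013 b023 b123 b014 b024 b124 b034 b134 b234) 2) l2) (Nat.add (Nat.mul (kp (cd10 b012 b013 b023 b123 b014 b024 b124 b034 b134 b234) 3) l3) (Nat.add (Nat.mul (kp (cd10 b012 b013 b023 b123 b014 b024 b124 b034 b134 b234) 4) l4) (Nat.add (Nat.mul (kp (cd10 b012 b013 b023 b123 b014 b024 b124 b034 b134 b234) 5) l5) (Nat.add (Nat.mul (kp (cd10 b012 b013 b023 b123 b014 b024 b124 b034 b134 b234) 6) l6) (Nat.add (Nat.mul (kp (cd10 b012 b013 b023 b123 b014 b024 b124 b034 b134 b234) 7) l7) (Nat.add (Nat.mul (kp (cd10 b012 b013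 b023 b123 b014 b024 b124 b034 b134 b234) 8) l8) (Nat.mul (kp (cd10 b012 b013 b023 b123 b014 b024 b124 b034 b134 b234) 9) l9))))))))))

/-- the sum over the choices of the sixth vertex -/
def ZP (zb : ℕ → ℕ) (kp : ℕ → ℕ → ℕ) (b012 b013 b023 b123 b014 b024 b124 b034 b134 b234 b015 b025 b125 b035 b135 b235 b045 b145 b245 b345 : ℕ) : ℕ := Nat.add (pen zb kp b012 b013 b023 b123 b014 b024 b124 b034 b134 b234 b015 b025 b125 b035 b135 b235 b045 b145 b245 b345) (Nat.add (pen zb kp b012 b013 b023 b123 b015 b025 b125 b035 b135 b235 b014 b024 b124 b034 b134 b234 b045 b145 b245 b345) (Nat.add (pen zb kp b012 b014 b024 b124 b015 b025 b125 b045 b145 b245 b013 b023 b123 b034 b134 b234 b035 b135 b235 b345) (Nat.add (pen zb kp b013 b014 b034 b134 b015 b035 b135 b045 b145 b345 b012 b023 b123 b024 b124 b234 b025 b125 b235 b245) (Nat.add (pen zb kp b023 b024 b034 b234 b025 b035 b235 b045 b245 b345 b012 b013 b123 b014 b124 b134 b015 b125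 b135 b145) (pen zb kp b123 b124 b134 b234 b125 b135 b235 b145 b245 b345 b012 b013 b023 b014 b024 b034 b015 b025 b035 b045)))))

/-- invariance of the tables under an exchange of two consecutive vertices -/
def symP0 (zb : ℕ → ℕ) (kp : ℕ → ℕ → ℕ) : Bool := B2 fun b012 => B2 fun b013 => B2 fun b023 => B2 fun b123 => B2 fun b014 => B2 fun b024 => B2 fun b124 => B2 fun b034 => B2 fun b134 => B2 fun b234 => and (Nat.beq (zb (cd10 b012 b013 b123 b023 b014 b124 b024 b134 b034 b234)) (zb (cd10 b012 b013 b023 b123 b014 b024 b124 b034 b134 b234))) (and (Nat.beq (kp (cd10 b012 b013 b123 b023 b014 b124 b024 b134 b034 b234) 0) (kp (cd10 b012 b013 b023 b123 b014 b024 b124 b034 b134 b234) 0)) (and (Nat.beq (kp (cd10 b012 b013 b123 b023 b014 b124 b024 b134 b034 b234) 1) (kp (cd10 b012 b013 b023 b123 b014 b024 b124 b034 b134 b234) 2)) (and (Nat.beq (kp (cd10 b012 b013 b123 b023 b014 b124 b024 b134 b034 b234) 2) (kp (cd10 b012 b013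 b023 b123 b014 b024 b124 b034 b134 b234) 1)) (and (Nat.beq (kp (cd10 b012 b013 b123 b023 b014 b124 b024 b134 b034 b234) 3) (kp (cd10 b012 b013 b023 b123 b014 b024 b124 b034 b134 b234) 4)) (and (Nat.beq (kp (cd10 b012 b013 b123 b023 b014 b124 b024 b134 b034 b234) 4) (kp (cd10 b012 b013 b023 b123 b014 b024 b124 b034 b134 b234) 3)) (and (Nat.beq (kp (cd10 b012 b013 b123 b023 b014 b124 b024 b134 b034 b234) 5) (kp (cd10 b012 b013 b023 b123 b014 b024 b124 b034 b134 b234) 5)) (and (Nat.beq (kp (cd10 b012 b013 b123 b023 b014 b124 b024 b134 b034 b234) 6) (kp (cd10 b012 b013 b023 b123 b014 b024 b124 b034 b134 b234) 7)) (and (Nat.beq (kp (cd10 b012 b013 b123 b023 b014 b124 b024 b134 b034 b234) 7) (kp (cd10 b012 b013 b023 b123 b014 b024 b124 b034 b134 b234) 6)) (and (Nat.beq (kp (cd10 b012 b013 b123 b023 b014 b124 b024 b134 b034 b234) 8) (kp (cd10 b012 b013 b023 b123 b014 b024 b124 b034 b134 b234) 8)) (Nat.beq (kp (cd10 b012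 b013 b123 b023 b014 b124 b024 b134 b034 b234) 9) (kp (cd10 b012 b013 b023 b123 b014 b024 b124 b034 b134 b234) 9)))))))))))

/-- invariance of the tables under an exchange of two consecutive vertices -/
def symP1 (zb : ℕ → ℕ) (kp : ℕ → ℕ → ℕ) : Bool := B2 fun b012 => B2 fun b013 => B2 fun b023 => B2 fun b123 => B2 fun b014 => B2 fun b024 => B2 fun b124 => B2 fun b034 => B2 fun b134 => B2 fun b234 => and (Nat.beq (zb (cd10 b012 b023 b013 b123 b024 b014 b124 b034 b234 b134)) (zb (cd10 b012 b013 b023 b123 b014 b024 b124 b034 b134 b234))) (and (Nat.beq (kp (cd10 b012 b023 b013 b123 b024 b014 b124 b034 b234 b134) 0) (kp (cd10 b012 b013 b023 b123 b014 b024 b124 b034 b134 b234) 1)) (and (Nat.beq (kp (cd10 b012 b023 b013 b123 b024 b014 b124 b034 b234 b134) 1) (kp (cd10 b012 b013 b023 b123 b014 b024 b124 b034 b134 b234) 0)) (and (Nat.beq (kp (cd10 b012 b023 b013 b123 b024 b014 b124 b034 b234 b134) 2) (kp (cd10 b012 b013 b023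 b123 b014 b024 b124 b034 b134 b234) 2)) (and (Nat.beq (kp (cd10 b012 b023 b013 b123 b024 b014 b124 b034 b234 b134) 3) (kp (cd10 b012 b013 b023 b123 b014 b024 b124 b034 b134 b234) 3)) (and (Nat.beq (kp (cd10 b012 b023 b013 b123 b024 b014 b124 b034 b234 b134) 4) (kp (cd10 b012 b013 b023 b123 b014 b024 b124 b034 b134 b234) 5)) (and (Nat.beq (kp (cd10 b012 b023 b013 b123 b024 b014 b124 b034 b234 b134) 5) (kp (cd10 b012 b013 b023 b123 b014 b024 b124 b034 b134 b234) 4)) (and (Nat.beq (kp (cd10 b012 b023 b013 b123 b024 b014 b124 b034 b234 b134) 6) (kp (cd10 b012 b013 b023 b123 b014 b024 b124 b034 b134 b234) 6)) (and (Nat.beq (kp (cd10 b012 b023 b013 b123 b024 b014 b124 b034 b234 b134) 7) (kp (cd10 b012 b013 b023 b123 b014 b024 b124 b034 b134 b234) 8)) (and (Nat.beq (kp (cd10 b012 b023 b013 b123 b024 b014 b124 b034 b234 b134) 8) (kp (cd10 b012 b013 b023 b123 b014 b024 b124 b034 b134 b234) 7)) (Nat.beq (kp (cd10 b012 b023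 b013 b123 b024 b014 b124 b034 b234 b134) 9) (kp (cd10 b012 b013 b023 b123 b014 b024 b124 b034 b134 b234) 9)))))))))))

/-- invariance of the tables under an exchange of two consecutive vertices -/
def symP2 (zb : ℕ → ℕ) (kp : ℕ → ℕ → ℕ) : Bool := B2 fun b012 => B2 fun b013 => B2 fun b023 => B2 fun b123 => B2 fun b014 => B2 fun b024 => B2 fun b124 => B2 fun b034 => B2 fun b134 => B2 fun b234 => and (Nat.beq (zb (cd10 b013 b012 b023 b123 b014 b034 b134 b024 b124 b234)) (zb (cd10 b012 b013 b023 b123 b014 b024 b124 b034 b134 b234))) (and (Nat.beq (kp (cd10 b013 b012 b023 b123 b014 b034 b134 b024 b124 b234) 0) (kp (cd10 b012 b013 b023 b123 b014 b024 b124 b034 b134 b234) 0)) (and (Nat.beq (kp (cd10 b013 b012 b023 b123 b014 b034 b134 b024 b124 b234) 1) (kp (cd10 b012 b013 b023 b123 b014 b024 b124 b034 b134 b234) 3)) (and (Nat.beq (kp (cd10 b013 b012 b023 b123 b014 b034 b134 b024 b124 b234) 2) (kp (cd10 b012 b013 b023 b123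 b014 b024 b124 b034 b134 b234) 4)) (and (Nat.beq (kp (cd10 b013 b012 b023 b123 b014 b034 b134 b024 b124 b234) 3) (kp (cd10 b012 b013 b023 b123 b014 b024 b124 b034 b134 b234) 1)) (and (Nat.beq (kp (cd10 b013 b012 b023 b123 b014 b034 b134 b024 b124 b234) 4) (kp (cd10 b012 b013 b023 b123 b014 b024 b124 b034 b134 b234) 2)) (and (Nat.beq (kp (cd10 b013 b012 b023 b123 b014 b034 b134 b024 b124 b234) 5) (kp (cd10 b012 b013 b023 b123 b014 b024 b124 b034 b134 b234) 5)) (and (Nat.beq (kp (cd10 b013 b012 b023 b123 b014 b034 b134 b024 b124 b234) 6) (kp (cd10 b012 b013 b023 b123 b014 b024 b124 b034 b134 b234) 6)) (and (Nat.beq (kp (cd10 b013 b012 b023 b123 b014 b034 b134 b024 b124 b234) 7) (kp (cd10 b012 b013 b023 b123 b014 b024 b124 b034 b134 b234) 7)) (and (Nat.beq (kp (cd10 b013 b012 b023 b123 b014 b034 b134 b024 b124 b234) 8) (kp (cd10 b012 b013 b023 b123 b014 b024 b124 b034 b134 b234) 9)) (Nat.beq (kp (cd10 b013 b012 b023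 b123 b014 b034 b134 b024 b124 b234) 9) (kp (cd10 b012 b013 b023 b123 b014 b024 b124 b034 b134 b234) 8)))))))))))

/-- invariance of the tables under an exchange of two consecutive vertices -/
def symP3 (zb : ℕ → ℕ) (kp : ℕ → ℕ → ℕ) : Bool := B2 fun b012 => B2 fun b013 => B2 fun b023 => B2 fun b123 => B2 fun b014 => B2 fun b024 => B2 fun b124 => B2 fun b034 => B2 fun b134 => B2 fun b234 => and (Nat.beq (zb (cd10 b012 b014 b024 b124 b013 b023 b123 b034 b134 b234)) (zb (cd10 b012 b013 b023 b123 b014 b024 b124 b034 b134 b234))) (and (Nat.beq (kp (cd10 b012 b014 b024 b124 b013 b023 b123 b034 b134 b234) 0) (kp (cd10 b012 b013 b023 b123 b014 b024 b124 b034 b134 b234) 0)) (and (Nat.beq (kp (cd10 b012 b014 b024 b124 b013 b023 b123 b034 b134 b234) 1) (kp (cd10 b012 b013 b023 b123 b014 b024 b124 b034 b134 b234) 1)) (and (Nat.beq (kp (cd10 b012 b014 b024 b124 b013 b023 b123 b034 b134 b234) 2) (kp (cd10 b012 b013 b023 b123 b014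 b024 b124 b034 b134 b234) 2)) (and (Nat.beq (kp (cd10 b012 b014 b024 b124 b013 b023 b123 b034 b134 b234) 3) (kp (cd10 b012 b013 b023 b123 b014 b024 b124 b034 b134 b234) 6)) (and (Nat.beq (kp (cd10 b012 b014 b024 b124 b013 b023 b123 b034 b134 b234) 4) (kp (cd10 b012 b013 b023 b123 b014 b024 b124 b034 b134 b234) 7)) (and (Nat.beq (kp (cd10 b012 b014 b024 b124 b013 b023 b123 b034 b134 b234) 5) (kp (cd10 b012 b013 b023 b123 b014 b024 b124 b034 b134 b234) 8)) (and (Nat.beq (kp (cd10 b012 b014 b024 b124 b013 b023 b123 b034 b134 b234) 6) (kp (cd10 b012 b013 b023 b123 b014 b024 b124 b034 b134 b234) 3)) (and (Nat.beq (kp (cd10 b012 b014 b024 b124 b013 b023 b123 b034 b134 b234) 7) (kp (cd10 b012 b013 b023 b123 b014 b024 b124 b034 b134 b234) 4)) (and (Nat.beq (kp (cd10 b012 b014 b024 b124 b013 b023 b123 b034 b134 b234) 8) (kp (cd10 b012 b013 b023 b123 b014 b024 b124 b034 b134 b234) 5)) (Nat.beq (kp (cd10 b012 b014 b024 b124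 b013 b023 b123 b034 b134 b234) 9) (kp (cd10 b012 b013 b023 b123 b014 b024 b124 b034 b134 b234) 9)))))))))))

section
variable {V : Type} {E : V → V → V → ℕ}

/-- the function at a tuple -/
def P5 (E : V → V → V → ℕ) (zb : ℕ → ℕ) (kp : ℕ → ℕ → ℕ) (a b c d e f : V) : ℕ :=
  pen zb kp (E a b c) (E a b d) (E a c d) (E b c d) (E a b e) (E a c e) (E b c e) (E a d e) (E b d e) (E c d e) (E a b f) (E a c f) (E b c f) (E a d f) (E b d f) (E c d f) (E a e f) (E b e f) (E c e f) (E d e f)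

theorem ZE_P5 (hE : Sy E) (zb : ℕ → ℕ) (kp : ℕ → ℕ → ℕ) (a b c d e f : V) :
    ZE E (ZP zb kp) a b c d e f = P5 E zb kp a b c d e f + (P5 E zb kp a b c d f e +
      (P5 E zb kp a b c e f d + (P5 E zb kp a b d e f c + (P5 E zb kp a c d e f b +
        P5 E zb kp b c d e f a)))) := by
  unfold ZE ZP P5
  simp only [Nat.add_eq, hE.h132 a b c, hE.h231 a b c, hE.h213 a b c, hE.h312 a b c, hE.h132 a b d, hE.h231 a b d, hE.h213 a b d, hE.h312 a b d, hE.h132 a b e, hE.h231 a b e, hE.h213 a b e, hE.h312 a b e, hE.h132 a b f, hE.h231 a b f, hE.h213 a b f, hE.h312 a b f, hE.h132 a c d, hE.h231 a c d, hE.h213 a c d, hE.h312 a c d, hE.h132 a c e, hE.h231 a c e, hE.h213 a c e, hE.h312 a c e, hE.h132 a c f, hE.h231 a c f, hE.h213 a c f, hE.h312 a c f, hE.h132 a d e, hE.h231 a d e, hE.h213 a d e, hE.h312 a d e, hE.h132 a d f, hE.h231 a d f, hE.h213 a d f, hE.h312 a d f, hE.h132 a e f, hE.h231 a e f, hE.h213 a e f, hE.h312 a e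 f, hE.h132 b c d, hE.h231 b c d, hE.h213 b c d, hE.h312 b c d, hE.h132 b c e, hE.h231 b c e, hE.h213 b c e, hE.h312 b c e, hE.h132 b c f, hE.h231 b c f, hE.h213 b c f, hE.h312 b c f, hE.h132 b d e, hE.h231 b d e, hE.h213 b d e, hE.h312 b d e, hE.h132 b d f, hE.h231 b d f, hE.h213 b d f, hE.h312 b d f, hE.h132 b e f, hE.h231 b e f, hE.h213 b e f, hE.h312 b e f, hE.h132 c d e, hE.h231 c d e, hE.h213 c d e, hE.h312 c d e, hE.h132 c d f, hE.h231 c d f, hE.h213 c d f, hE.h312 c d f, hE.h132 c e f, hE.h231 c e f, hE.h213 c e f, hE.h312 c e f, hE.h132 d e f, hE.h231 d e f, hE.h213 d e f, hE.h312 d e f]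

theorem P5_sw0 (hE : Sy E) {zb : ℕ → ℕ} {kp : ℕ → ℕ → ℕ} (h : symP0 zb kp = true) (a b c d e f : V) :
    P5 E zb kp b a c d e f = P5 E zb kp a b c d e f := by
  have h1 := (B2_true (B2_true (B2_true (B2_true (B2_true (B2_true (B2_true (B2_true (B2_true (B2_true h (hE.b a b c)) (hE.b a b d)) (hE.b a c d)) (hE.b b c d)) (hE.b a b e)) (hE.b a c e)) (hE.b b c e)) (hE.b a d e)) (hE.b b d e)) (hE.b c d e))
  simp only [Bool.and_eq_true] at h1
  obtain ⟨z0, z1, z2, z3, z4, z5, z6, z7, z8, z9, z10⟩ := h1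
  replace z0 := Nat.eq_of_beq_eq_true z0
  replace z1 := Nat.eq_of_beq_eq_true z1
  replace z2 := Nat.eq_of_beq_eq_true z2
  replace z3 := Nat.eq_of_beq_eq_true z3
  replace z4 := Nat.eq_of_beq_eq_true z4
  replace z5 := Nat.eq_of_beq_eq_true z5
  replace z6 := Nat.eq_of_beq_eq_true z6
  replace z7 := Nat.eq_of_beq_eq_true z7
  replace z8 := Nat.eq_of_beq_eq_true z8
  replace z9 := Nat.eq_of_beq_eq_true z9
  replace z10 := Nat.eq_of_beq_eq_true z10
  unfold P5 pen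
  simp only [Nat.add_eq, Nat.mul_eq, hE.h132 a b c, hE.h231 a b c, hE.h213 a b c, hE.h312 a b c, hE.h132 a b d, hE.h231 a b d, hE.h213 a b d, hE.h312 a b d, hE.h132 a b e, hE.h231 a b e, hE.h213 a b e, hE.h312 a b e, hE.h132 a b f, hE.h231 a b f, hE.h213 a b f, hE.h312 a b f, hE.h132 a c d, hE.h231 a c d, hE.h213 a c d, hE.h312 a c d, hE.h132 a c e, hE.h231 a c e, hE.h213 a c e, hE.h312 a c e, hE.h132 a c f, hE.h231 a c f, hE.h213 a c f, hE.h312 a c f, hE.h132 a d e, hE.h231 a d e, hE.h213 a d e, hE.h312 a d e, hE.h132 a d f, hE.h231 a d f, hE.h213 a d f, hE.h312 a d f, hE.h132 a e f, hE.h231 a e f, hE.h213 a e f, hE.h312 a e f, hE.h132 b c d, hE.h231 b c d, hE.h213 b c d, hE.h312 b c d, hE.h132 b c e, hE.h231 b c e, hE.h213 b c e, hE.h312 b c e, hE.h132 b c f, hE.h231 b c f, hE.h213 b c f, hE.h312 b c f, hE.h132 b d e, hE.h231 b d e, hE.h213 b d e, hE.h312 b d e, hE.h132 b d f, hE.h231 b d f, hE.h213 b d f, hE.h312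 b d f, hE.h132 b e f, hE.h231 b e f, hE.h213 b e f, hE.h312 b e f, hE.h132 c d e, hE.h231 c d e, hE.h213 c d e, hE.h312 c d e, hE.h132 c d f, hE.h231 c d f, hE.h213 c d f, hE.h312 c d f, hE.h132 c e f, hE.h231 c e f, hE.h213 c e f, hE.h312 c e f, hE.h132 d e f, hE.h231 d e f, hE.h213 d e f, hE.h312 d e f]
  simp only [z0, z1, z2, z3, z4, z5, z6, z7, z8, z9, z10]
  ring

theorem P5_sw1 (hE : Sy E) {zb : ℕ → ℕ} {kp : ℕ → ℕ → ℕ} (h : symP1 zb kp = true) (a b c d e f : V) :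
    P5 E zb kp a c b d e f = P5 E zb kp a b c d e f := by
  have h1 := (B2_true (B2_true (B2_true (B2_true (B2_true (B2_true (B2_true (B2_true (B2_true (B2_true h (hE.b a b c)) (hE.b a b d)) (hE.b a c d)) (hE.b b c d)) (hE.b a b e)) (hE.b a c e)) (hE.b b c e)) (hE.b a d e)) (hE.b b d e)) (hE.b c d e))
  simp only [Bool.and_eq_true] at h1
  obtain ⟨z0, z1, z2, z3, z4, z5, z6, z7, z8, z9, z10⟩ := h1
  replace z0 := Nat.eq_of_beq_eq_true z0
  replace z1 := Nat.eq_of_beq_eq_true z1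
  replace z2 := Nat.eq_of_beq_eq_true z2
  replace z3 := Nat.eq_of_beq_eq_true z3
  replace z4 := Nat.eq_of_beq_eq_true z4
  replace z5 := Nat.eq_of_beq_eq_true z5
  replace z6 := Nat.eq_of_beq_eq_true z6
  replace z7 := Nat.eq_of_beq_eq_true z7
  replace z8 := Nat.eq_of_beq_eq_true z8
  replace z9 := Nat.eq_of_beq_eq_true z9
  replace z10 := Nat.eq_of_beq_eq_true z10
  unfold P5 pen
  simp only [Nat.add_eq, Nat.mul_eq, hE.h132 a b c, hE.h231 a b c, hE.h213 a b c, hE.h312 a b c, hE.h132 a b d, hE.h231 a b d, hE.h213 a b d, hE.h312 a b d, hE.h132 a b e, hE.h231 a b e, hE.h213 a b e, hE.h312 a b e, hE.h132 a b f, hE.h231 a b f, hE.h213 a b f, hE.h312 a b f, hE.h132 a c d, hE.h231 a c d, hE.h213 a c d, hE.h312 a c d, hE.h132 a c e, hE.h231 a c e, hE.h213 a c e, hE.h312 a c e, hE.h132 a c f, hE.h231 a c f, hE.h213 a c f, hE.h312 a c f, hE.h132 a d e, hE.h231 a d e, hE.h213 a d e, hE.h312 a d e, hE.h132 a d f, hE.h231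 a d f, hE.h213 a d f, hE.h312 a d f, hE.h132 a e f, hE.h231 a e f, hE.h213 a e f, hE.h312 a e f, hE.h132 b c d, hE.h231 b c d, hE.h213 b c d, hE.h312 b c d, hE.h132 b c e, hE.h231 b c e, hE.h213 b c e, hE.h312 b c e, hE.h132 b c f, hE.h231 b c f, hE.h213 b c f, hE.h312 b c f, hE.h132 b d e, hE.h231 b d e, hE.h213 b d e, hE.h312 b d e, hE.h132 b d f, hE.h231 b d f, hE.h213 b d f, hE.h312 b d f, hE.h132 b e f, hE.h231 b e f, hE.h213 b e f, hE.h312 b e f, hE.h132 c d e, hE.h231 c d e, hE.h213 c d e, hE.h312 c d e, hE.h132 c d f, hE.h231 c d f, hE.h213 c d f, hE.h312 c d f, hE.h132 c e f, hE.h231 c e f, hE.h213 c e f, hE.h312 c e f, hE.h132 d e f, hE.h231 d e f, hE.h213 d e f, hE.h312 d e f]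
  simp only [z0, z1, z2, z3, z4, z5, z6, z7, z8, z9, z10]
  ring

theorem P5_sw2 (hE : Sy E) {zb : ℕ → ℕ} {kp : ℕ → ℕ → ℕ} (h : symP2 zb kp = true) (a b c d e f : V) :
    P5 E zb kp a b d c e f = P5 E zb kp a b c d e f := by
  have h1 := (B2_true (B2_true (B2_true (B2_true (B2_true (B2_true (B2_true (B2_true (B2_true (B2_true h (hE.b a b c)) (hE.b a b d)) (hE.b a c d)) (hE.b b c d)) (hE.b a b e)) (hE.b a c e)) (hE.b b c e)) (hE.b a d e)) (hE.b b d e)) (hE.b c d e))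
  simp only [Bool.and_eq_true] at h1
  obtain ⟨z0, z1, z2, z3, z4, z5, z6, z7, z8, z9, z10⟩ := h1
  replace z0 := Nat.eq_of_beq_eq_true z0
  replace z1 := Nat.eq_of_beq_eq_true z1
  replace z2 := Nat.eq_of_beq_eq_true z2
  replace z3 := Nat.eq_of_beq_eq_true z3
  replace z4 := Nat.eq_of_beq_eq_true z4
  replace z5 := Nat.eq_of_beq_eq_true z5
  replace z6 := Nat.eq_of_beq_eq_true z6
  replace z7 := Nat.eq_of_beq_eq_true z7
  replace z8 := Nat.eq_of_beq_eq_true z8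
  replace z9 := Nat.eq_of_beq_eq_true z9
  replace z10 := Nat.eq_of_beq_eq_true z10
  unfold P5 pen
  simp only [Nat.add_eq, Nat.mul_eq, hE.h132 a b c, hE.h231 a b c, hE.h213 a b c, hE.h312 a b c, hE.h132 a b d, hE.h231 a b d, hE.h213 a b d, hE.h312 a b d, hE.h132 a b e, hE.h231 a b e, hE.h213 a b e, hE.h312 a b e, hE.h132 a b f, hE.h231 a b f, hE.h213 a b f, hE.h312 a b f, hE.h132 a c d, hE.h231 a c d, hE.h213 a c d, hE.h312 a c d, hE.h132 a c e, hE.h231 a c e, hE.h213 a c e, hE.h312 a c e, hE.h132 a c f, hE.h231 a c f, hE.h213 a c f, hE.h312 a c f, hE.h132 a d e, hE.h231 a d e, hE.h213 a d e, hE.h312 a d e, hE.h132 a d f, hE.h231 a d f, hE.h213 a d f, hE.h312 a d f, hE.h132 a e f, hE.h231 a e f, hE.h213 a e f, hE.h312 a e f, hE.h132 b c d, hE.h231 b c d, hE.h213 b c d, hE.h312 b c d, hE.h132 b c e, hE.h231 b c e, hE.h213 b c e, hE.h312 b c e, hE.h132 b c f, hE.h231 b c f, hE.h213 b c f, hE.h312 b c f, hE.h132 b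 d e, hE.h231 b d e, hE.h213 b d e, hE.h312 b d e, hE.h132 b d f, hE.h231 b d f, hE.h213 b d f, hE.h312 b d f, hE.h132 b e f, hE.h231 b e f, hE.h213 b e f, hE.h312 b e f, hE.h132 c d e, hE.h231 c d e, hE.h213 c d e, hE.h312 c d e, hE.h132 c d f, hE.h231 c d f, hE.h213 c d f, hE.h312 c d f, hE.h132 c e f, hE.h231 c e f, hE.h213 c e f, hE.h312 c e f, hE.h132 d e f, hE.h231 d e f, hE.h213 d e f, hE.h312 d e f]
  simp only [z0, z1, z2, z3, z4, z5, z6, z7, z8, z9, z10]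
  ring

theorem P5_sw3 (hE : Sy E) {zb : ℕ → ℕ} {kp : ℕ → ℕ → ℕ} (h : symP3 zb kp = true) (a b c d e f : V) :
    P5 E zb kp a b c e d f = P5 E zb kp a b c d e f := by
  have h1 := (B2_true (B2_true (B2_true (B2_true (B2_true (B2_true (B2_true (B2_true (B2_true (B2_true h (hE.b a b c)) (hE.b a b d)) (hE.b a c d)) (hE.b b c d)) (hE.b a b e)) (hE.b a c e)) (hE.b b c e)) (hE.b a d e)) (hE.b b d e)) (hE.b c d e))
  simp only [Bool.and_eq_true] at h1
  obtain ⟨z0, z1, z2, z3, z4, z5, z6, z7, z8, z9, z10⟩ := h1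
  replace z0 := Nat.eq_of_beq_eq_true z0
  replace z1 := Nat.eq_of_beq_eq_true z1
  replace z2 := Nat.eq_of_beq_eq_true z2
  replace z3 := Nat.eq_of_beq_eq_true z3
  replace z4 := Nat.eq_of_beq_eq_true z4
  replace z5 := Nat.eq_of_beq_eq_true z5
  replace z6 := Nat.eq_of_beq_eq_true z6
  replace z7 := Nat.eq_of_beq_eq_true z7
  replace z8 := Nat.eq_of_beq_eq_true z8
  replace z9 := Nat.eq_of_beq_eq_true z9
  replace z10 := Nat.eq_of_beq_eq_true z10
  unfold P5 pen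
  simp only [Nat.add_eq, Nat.mul_eq, hE.h132 a b c, hE.h231 a b c, hE.h213 a b c, hE.h312 a b c, hE.h132 a b d, hE.h231 a b d, hE.h213 a b d, hE.h312 a b d, hE.h132 a b e, hE.h231 a b e, hE.h213 a b e, hE.h312 a b e, hE.h132 a b f, hE.h231 a b f, hE.h213 a b f, hE.h312 a b f, hE.h132 a c d, hE.h231 a c d, hE.h213 a c d, hE.h312 a c d, hE.h132 a c e, hE.h231 a c e, hE.h213 a c e, hE.h312 a c e, hE.h132 a c f, hE.h231 a c f, hE.h213 a c f, hE.h312 a c f, hE.h132 a d e, hE.h231 a d e, hE.h213 a d e, hE.h312 a d e, hE.h132 a d f, hE.h231 a d f, hE.h213 a d f, hE.h312 a d f, hE.h132 a e f, hE.h231 a e f, hE.h213 a e f, hE.h312 a e f, hE.h132 b c d, hE.h231 b c d, hE.h213 b c d, hE.h312 b c d, hE.h132 b c e, hE.h231 b c e, hE.h213 b c e, hE.h312 b c e, hE.h132 b c f, hE.h231 b c f, hE.h213 b c f, hE.h312 b c f, hE.h132 b d e, hE.h231 b d e, hE.h213 b d e, hE.h312 b d e, hE.h132 b d f, hE.h231 b d f, hE.h213 b d f, hE.h312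 b d f, hE.h132 b e f, hE.h231 b e f, hE.h213 b e f, hE.h312 b e f, hE.h132 c d e, hE.h231 c d e, hE.h213 c d e, hE.h312 c d e, hE.h132 c d f, hE.h231 c d f, hE.h213 c d f, hE.h312 c d f, hE.h132 c e f, hE.h231 c e f, hE.h213 c e f, hE.h312 c e f, hE.h132 d e f, hE.h231 d e f, hE.h213 d e f, hE.h312 d e f]
  simp only [z0, z1, z2, z3, z4, z5, z6, z7, z8, z9, z10]
  ring

theorem leafP (hE : Sy E) (hK : NoK5 E) {q4 : ℕ → ℕ → ℕ → ℕ} {q2 : ℕ → ℕ → ℕ} {zb : ℕ → ℕ}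
    {kp : ℕ → ℕ → ℕ} (h0 : symP0 zb kp = true) (h1 : symP1 zb kp = true) (h2 : symP2 zb kp = true)
    (h3 : symP3 zb kp = true) (hs4 : sym4 q4 = true) (hs2 : sym2 q2 = true)
    (hc : ∀ b012 b013 b023 b123 b014 b024 b124 b034 b134 b234 : ℕ, Bt b012 → Bt b013 → Bt b023 → Bt b123 → Bt b014 → Bt b024 → Bt b124 → Bt b034 → Bt b134 → Bt b234 → tg5 b012 b013 b023 b123 b014 b024 b124 b034 b134 b234 = 4 → chkZ q4 q2 (ZP zb kp) b012 b013 b023 b123 b014 b024 b124 b034 b134 b234 = true)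
    (a b c d e f : V) : L4 E q4 a b c d e f + L2 E q2 a b c d e f ≤ ZE E (ZP zb kp) a b c d e f := by
  refine leafZ_all hE hK ?_ ?_ ?_ ?_ hs4 hs2 hc a b c d e f
  · intro a b c d e f
    rw [ZE_P5 hE, ZE_P5 hE, P5_sw0 hE h0 a b c d e f, P5_sw0 hE h0 a b c d f e,
      P5_sw0 hE h0 a b c e f d, P5_sw0 hE h0 a b d e f c]
    ring
  · intro a b c d e f
    rw [ZE_P5 hE, ZE_P5 hE, P5_sw1 hE h1 a b c d e f, P5_sw1 hE h1 a b c d f e,
      P5_sw1 hE h1 a b c e f d, P5_sw0 hE h0 b c d e f a]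
    ring
  · intro a b c d e f
    rw [ZE_P5 hE, ZE_P5 hE, P5_sw2 hE h2 a b c d e f, P5_sw2 hE h2 a b c d f e,
      P5_sw1 hE h1 a c d e f b, P5_sw1 hE h1 b c d e f a]
    ring
  · intro a b c d e f
    rw [ZE_P5 hE, ZE_P5 hE, P5_sw3 hE h3 a b c d e f, P5_sw2 hE h2 a b d e f c,
      P5_sw2 hE h2 a c d e f b, P5_sw2 hE h2 b c d e f a]
    ring
end

section
variable {V : Type} [Fintype V] (E : V → V → V → ℕ)

/-- the codegree of two vertices -/
def cg (u v : V) : ℕ := ∑ w, E u v w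

/-- the sum over the sixth vertex -/
def S5 (zb : ℕ → ℕ) (kp : ℕ → ℕ → ℕ) (a b c d e : V) : ℕ :=
  Fintype.card V * zb (cd10 (E a b c) (E a b d) (E a c d) (E b c d) (E a b e) (E a c e) (E b c e) (E a d e) (E b d e) (E c d e)) + (kp (cd10 (E a b c) (E a b d) (E a c d) (E b c d) (E a b e) (E a c e) (E b c e) (E a d e) (E b d e) (E c d e)) 0 * cg E a b + (kp (cd10 (E a b c) (E a b d) (E a c d) (E b c d) (E a b e) (E a c e) (E b c e) (E a d e) (E b d e) (E c d e)) 1 * cg E a c + (kp (cd10 (E a b c) (E a b d) (E a c d) (E b c d) (E a b e) (E a c e) (E b c e) (E a d e) (E b d e) (E c d e)) 2 * cg E b c + (kp (cd10 (E a b c) (E a b d) (E a c d) (E b c d) (E a b e) (E a c e) (E b c e) (E a d e) (E b d e) (E c d e)) 3 * cg E a d + (kp (cd10 (E a b c) (E a b d) (E a c d) (E b c d) (E a b e) (E a c e) (E b c e) (E a d e) (E b d e) (E c d e)) 4 * cg E b d + (kp (cd10 (E a b c) (E a b d) (E a c d) (E b c d) (E a b e) (E a c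 e) (E b c e) (E a d e) (E b d e) (E c d e)) 5 * cg E c d + (kp (cd10 (E a b c) (E a b d) (E a c d) (E b c d) (E a b e) (E a c e) (E b c e) (E a d e) (E b d e) (E c d e)) 6 * cg E a e + (kp (cd10 (E a b c) (E a b d) (E a c d) (E b c d) (E a b e) (E a c e) (E b c e) (E a d e) (E b d e) (E c d e)) 7 * cg E b e + (kp (cd10 (E a b c) (E a b d) (E a c d) (E b c d) (E a b e) (E a c e) (E b c e) (E a d e) (E b d e) (E c d e)) 8 * cg E c e + (kp (cd10 (E a b c) (E a b d) (E a c d) (E b c d) (E a b e) (E a c e) (E b c e) (E a d e) (E b d e) (E c d e)) 9 * cg E d e))))))))))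

theorem sum_P5 (zb : ℕ → ℕ) (kp : ℕ → ℕ → ℕ) (a b c d e : V) :
    ∑ f, P5 E zb kp a b c d e f = S5 E zb kp a b c d e := by
  unfold S5 P5 pen cg
  simp only [Nat.add_eq, Nat.mul_eq, sum_add_distrib, ← mul_sum, sum_const, card_univ, smul_eq_mul]

theorem sum_ZE (hE : Sy E) (zb : ℕ → ℕ) (kp : ℕ → ℕ → ℕ) :
    ∑ x : Fin 6 → V, (ZE E (ZP zb kp) (x 0) (x 1) (x 2) (x 3) (x 4) (x 5) : ℤ) =
      6 * ∑ a, ∑ b, ∑ c, ∑ d, ∑ e, (S5 E zb kp a b c d e : ℤ) := by
  have hp : ∀ i0 i1 i2 i3 i4 i5 : Fin 6, Function.Injective ![i0, i1, i2, i3, i4, i5] →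
      ∑ x : Fin 6 → V, (P5 E zb kp (x i0) (x i1) (x i2) (x i3) (x i4) (x i5) : ℤ)
      = ∑ x : Fin 6 → V, (P5 E zb kp (x 0) (x 1) (x 2) (x 3) (x 4) (x 5) : ℤ) :=
    fun i0 i1 i2 i3 i4 i5 hg =>
      psum (fun a b c d e f => (P5 E zb kp a b c d e f : ℤ)) ![i0, i1, i2, i3, i4, i5]
        (Finite.injective_iff_bijective.mp hg)
  have h1 : ∑ x : Fin 6 → V, (P5 E zb kp (x 0) (x 1) (x 2) (x 3) (x 4) (x 5) : ℤ) =
      ∑ a, ∑ b, ∑ c, ∑ d, ∑ e, (S5 E zb kp a b c d e : ℤ) := by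
    rw [conv6 (fun a b c d e f => (P5 E zb kp a b c d e f : ℤ))]
    refine sum_congr rfl fun a _ => sum_congr rfl fun b _ => sum_congr rfl fun c _ =>
      sum_congr rfl fun d _ => sum_congr rfl fun e _ => ?_
    rw [← sum_P5]
    push_cast
    rfl
  rw [← h1]
  simp only [ZE_P5 hE, Nat.cast_add, sum_add_distrib]
  rw [hp 0 1 2 3 5 4 (by decide), hp 0 1 2 4 5 3 (by decide), hp 0 1 3 4 5 2 (by decide),
    hp 0 2 3 4 5 1 (by decide), hp 1 2 3 4 5 0 (by decide)]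
  ring

end
end Pool.Agent.T9h10.FC
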